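import Pool.Agent.Helper69.UW.Defs
import Pool.Agent.Helper65.UG.Base
import Pool.Agent.Helper60.UG.R789

/-!
# UW T3: second moment of the sum of the squares

`RR PP2 = ∑ r(n) rp(p)²/(√n p) (n p²)^(-it)`; `n` is squarefree, so `n p²` determines `n` and `p`. The diagonal is
`VV ∑ rp⁴/p²`.
-/

set_option autoImplicit false
open MeasureTheory Set Filter Topology
open Pool.Agent.Helper57.Zeta Pool.Agent.Helper57.LH Pool.Agent.Helper57.ED Pool.Agent.Helper54.LG
open Pool.Agent.Helper69.UG (WW NR)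
open Pool.Agent.Helper69.UV (ww)
open Pool.Agent.Helper65.UG (ee ee_norm ee_cont ee_mul cpow_ee int_PW_bdd mv)
open Pool.Agent.Helper60.UG (exp_WW WW_pos NR_le one_le_NR)
open Pool.Agent.Helper69.UW

namespace Pool.Agent.Helper21.UW

/-- The statement R2. -/
def StR2 (δ : ℝ) : Prop := ∃ c0 T0 : ℝ, ∀ T c m v : ℝ, T0 ≤ T → Adm c0 T c m → |v| = vv δ c m →
    ∀ n, |rr δ T c m v n| ≤ T ^ (1 / 192 : ℝ) ∧ 1 ≤ VV δ T c m v

/-- The statement R3. -/
def StR3 (δ : ℝ) : Prop := ∃ c0 T0 : ℝ, ∀ T c m : ℝ, T0 ≤ T → Adm c0 T c m →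
    (∀ p ∈ PR δ T c m, p.Prime ∧ Real.log T ^ 4 < p ∧ Real.log T ^ 60 < p ∧ (p : ℝ) ≤ T ^ (1 / 1000 : ℝ) ∧
      64 * m * Real.log p ≤ δ * Real.log T ∧ 1 < ww T c p) ∧
    1 ≤ ∑ p ∈ PR δ T c m, (1 / p : ℝ) ∧ ∑ p ∈ PR δ T c m, (1 / p : ℝ) ≤ ll c m

lemma sqf_of_ne {δ T c m v : ℝ} {n : ℕ} (h : rr δ T c m v n ≠ 0) : Squarefree n := by
  unfold rr at h
  by_contra hn
  apply h
  rw [if_neg]
  exact fun h' => hn h'.1

/-- `n p²` determines `n` and `p` if `n` is squarefree (only the second number is needed). -/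
lemma uniq {n n' p p' : ℕ} (hp : p.Prime) (hp' : p'.Prime) (hn' : Squarefree n')
    (h : n * p ^ 2 = n' * p' ^ 2) : n = n' ∧ p = p' := by
  have hpp : p = p' := by
    by_contra hne
    have h1 : p ^ 2 ∣ n' * p' ^ 2 := ⟨n, by rw [← h, mul_comm]⟩
    have hco : Nat.Coprime (p ^ 2) (p' ^ 2) := Nat.Coprime.pow 2 2 ((Nat.coprime_primes hp hp').2 hne)
    have h2 : p ^ 2 ∣ n' := hco.dvd_of_dvd_mul_right h1
    have h3 := hn' p (by rwa [← sq])
    exact hp.one_lt.ne' (Nat.isUnit_iff.mp h3)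
  subst hpp
  exact ⟨Nat.eq_of_mul_eq_mul_right (pow_pos hp.pos 2) h, rfl⟩

lemma growth10 : ∃ T0 : ℝ, 2 ≤ T0 ∧ ∀ T : ℝ, T0 ≤ T → 2 * T ^ 10 * Real.exp (-(T ^ (1 / 2 : ℝ))) ≤ 1 := by
  have h := (Real.tendsto_pow_mul_exp_neg_atTop_nhds_zero 22).comp (tendsto_rpow_atTop (show (0:ℝ) < 1 / 2 by norm_num))
  have h2 := h.eventually (eventually_le_nhds (show (0:ℝ) < 1 by norm_num))
  obtain ⟨T0, hT0⟩ := (h2.and (eventually_ge_atTop 2)).exists_forall_of_atTop
  refine ⟨max T0 2, le_max_right _ _, fun T hT => ?_⟩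
  obtain ⟨h3, h4⟩ := hT0 T (le_trans (le_max_left _ _) hT)
  have hT1 : (0:ℝ) < T := by linarith
  have h5 : (T ^ (1 / 2 : ℝ)) ^ 22 = T ^ 11 := by
    rw [← Real.rpow_natCast, ← Real.rpow_mul hT1.le]
    norm_num
  simp only [Function.comp] at h3
  rw [h5] at h3
  refine le_trans ?_ h3
  apply mul_le_mul_of_nonneg_right _ (Real.exp_pos _).le
  calc 2 * T ^ 10 ≤ T * T ^ 10 := by gcongr
    _ = T ^ 11 := by ring

theorem p2mom_of {δ : ℝ} (hδ : 0 < δ) (hδ1 : δ ≤ 1 / 32) (hR2 : StR2 δ) (hR3 : StR3 δ) :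
    ∃ c0 T0 : ℝ, ∀ T c m v : ℝ, T0 ≤ T → Adm c0 T c m → |v| = vv δ c m →
    ∀ τ : ℝ, Integrable (fun t => wt δ T c m v τ t * ‖PP2 δ T c m v t‖ ^ 2) ∧
    ∫ t, wt δ T c m v τ t * ‖PP2 δ T c m v t‖ ^ 2 ≤ VV δ T c m v / c ^ 4 := by
  obtain ⟨c2, T2, hR2⟩ := hR2
  obtain ⟨c3, T3, hR3⟩ := hR3
  obtain ⟨T4, hT4, hg⟩ := growth10
  obtain ⟨T5, hT5, hcT⟩ := Adm.c_le 2
  refine ⟨max (max c2 c3) (Real.exp 6), max (max T2 T3) (max T4 T5), fun T c m v hT hadm hv τ => ?_⟩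
  have hTT2 : T2 ≤ T := (le_max_left _ _).trans ((le_max_left _ _).trans hT)
  have hTT3 : T3 ≤ T := (le_max_right _ _).trans ((le_max_left _ _).trans hT)
  have hTT4 : T4 ≤ T := (le_max_left _ _).trans ((le_max_right _ _).trans hT)
  have hTT5 : T5 ≤ T := (le_max_right _ _).trans ((le_max_right _ _).trans hT)
  have hT1 : 1 ≤ T := by linarith
  have hT0 : 0 < T := by linarith
  have had2 : Adm c2 T c m := hadm.mono ((le_max_left _ _).trans (le_max_left _ _))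
  have had3 : Adm c3 T c m := hadm.mono ((le_max_right _ _).trans (le_max_left _ _))
  have hade : Adm (Real.exp 6) T c m := hadm.mono (le_max_right _ _)
  have hr := fun n => (hR2 T c m v hTT2 had2 hv n).1
  have hV := (hR2 T c m v hTT2 had2 hv 0).2
  obtain ⟨hP, -, hP1⟩ := hR3 T c m hTT3 had3
  have hc3 : 3 ≤ c := hadm.1
  have hm1 : 1 ≤ m := hadm.2.1
  have he1 : 1 < Real.exp 6 := Real.one_lt_exp_iff.2 (by norm_num)
  have hmc : m ≤ c := hade.m_le_c he1.le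
  have hll6 : 6 ≤ ll c m := by
    have := hade.log_le_ll (Real.exp_pos 6)
    rwa [Real.log_exp] at this
  have hllc : ll c m ≤ c := by
    refine hade.ll_le.trans ?_
    have := Real.log_le_sub_one_of_pos (show 0 < c by linarith)
    linarith
  have hcL : 2 * c ≤ Real.log T := hcT _ T c m hTT5 hadm
  have hL1 : 1 ≤ Real.log T := by linarith
  have hLT : Real.log T ≤ T := by
    have := Real.log_le_sub_one_of_pos hT0
    linarith
  -- the size of the coefficients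
  have hv1 : |v| ≤ √m := by
    rw [hv]
    refine (vv_le hδ hδ1 hade he1).trans ?_
    rw [div_le_iff₀ (by linarith)]
    have := Real.sqrt_nonneg m
    nlinarith
  have hv2 : v ^ 2 ≤ m := by
    rw [← sq_abs]
    calc |v| ^ 2 ≤ (√m) ^ 2 := pow_le_pow_left₀ (abs_nonneg _) hv1 2
      _ = m := Real.sq_sqrt (by linarith)
  have hrp : ∀ p, rp T c v p ^ 2 ≤ m := by
    intro p
    unfold rp sw
    rw [mul_pow]
    have h1 : Real.sin (Real.pi * ww T c p) ^ 2 ≤ 1 := Real.sin_sq_le_one _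
    calc v ^ 2 * Real.sin (Real.pi * ww T c p) ^ 2 ≤ v ^ 2 * 1 := mul_le_mul_of_nonneg_left h1 (sq_nonneg _)
      _ ≤ m := by linarith
  set N := NR T with hN
  set N2 := ⌊T ^ (1 / 1000 : ℝ)⌋₊ with hN2
  set P := PR δ T c m with hPdef
  have hN1 : 1 ≤ N := one_le_NR hT1
  have hN21 : 1 ≤ N2 := (Nat.one_le_floor_iff _).2 (Real.one_le_rpow hT1 (by norm_num))
  have hPN2 : ∀ p ∈ P, 1 ≤ p ∧ p ≤ N2 := fun p hp =>
    ⟨(hP p hp).1.one_lt.le, Nat.le_floor (hP p hp).2.2.2.1⟩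
  set s := Finset.Icc 1 N ×ˢ P with hs
  set b : ℕ × ℕ → ℂ := fun i => ((rr δ T c m v i.1 / Real.sqrt i.1 : ℝ) : ℂ) * ((rp T c v i.2 ^ 2 / i.2 : ℝ) : ℂ) with hb
  have hW : 0 < WW T := WW_pos hT0
  -- the product
  have hprod : ∀ t, RR δ T c m v t * PP2 δ T c m v t = ∑ i ∈ s, b i * ee (i.1 * i.2 ^ 2) t := by
    intro t
    rw [RR, PP2, Finset.sum_mul_sum, ← Finset.sum_product']
    refine Finset.sum_congr rfl fun i hi => ?_
    rw [hs, Finset.mem_product] at hi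
    have h1 := (Finset.mem_Icc.1 hi.1).1
    have h2 := (hPN2 _ hi.2).1
    have h2' : (0:ℝ) < i.2 := by exact_mod_cast h2
    rw [cpow_ee h1, cpow_ee h2, ee_mul (by omega) (by positivity), sq i.2, ee_mul (by omega) (by omega), hb]
    have h3 : (((rp T c v i.2 ^ 2 / i.2 : ℝ)) : ℂ) = (rp T c v i.2 : ℂ) ^ 2 * (((1 / √(i.2 : ℝ) : ℝ)) : ℂ) ^ 2 := by
      have h4 : (1 / √(i.2 : ℝ)) ^ 2 = 1 / (i.2 : ℝ) := by
        rw [div_pow, one_pow, Real.sq_sqrt h2'.le]
      rw [← Complex.ofReal_pow, ← Complex.ofReal_pow, h4, ← Complex.ofReal_mul]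
      congr 1
      ring
    simp only
    rw [h3]
    push_cast
    ring
  have hkey : ∀ i ∈ s, 1 ≤ i.1 * i.2 ^ 2 ∧ i.1 * i.2 ^ 2 ≤ N * N2 ^ 2 := by
    intro i hi
    rw [hs, Finset.mem_product, Finset.mem_Icc] at hi
    obtain ⟨h1, h2⟩ := hPN2 _ hi.2
    exact ⟨Nat.mul_pos hi.1.1 (pow_pos h1 2), Nat.mul_le_mul hi.1.2 (Nat.pow_le_pow_left h2 2)⟩
  have hfun : (fun t => wt δ T c m v τ t * ‖PP2 δ T c m v t‖ ^ 2) =
      fun t => PW (WW T) (t - τ) * ‖∑ i ∈ s, b i * ee (i.1 * i.2 ^ 2) t‖ ^ 2 := by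
    funext t
    rw [← hprod, norm_mul, wt]
    ring
  have hbn : ∀ i ∈ s, ‖b i‖ = |rr δ T c m v i.1| / Real.sqrt i.1 * (rp T c v i.2 ^ 2 / i.2) := by
    intro i hi
    rw [hb]
    simp only
    rw [norm_mul, Complex.norm_real, Complex.norm_real, Real.norm_eq_abs, Real.norm_eq_abs, abs_div,
      abs_of_nonneg (Real.sqrt_nonneg _), abs_of_nonneg (show 0 ≤ rp T c v i.2 ^ 2 / (i.2 : ℝ) by positivity)]
  have hsum1 : ∑ p ∈ P, (1 / p : ℝ) ≤ c := hP1.trans hllc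
  refine ⟨?_, ?_⟩
  · rw [hfun]
    refine int_PW_bdd hW τ (f := fun t => ‖∑ i ∈ s, b i * ee (i.1 * i.2 ^ 2) t‖ ^ 2) ?_
      (C := (∑ i ∈ s, ‖b i‖) ^ 2) fun t => ?_
    · exact (continuous_finsetSum _ fun i _ => continuous_const.mul (ee_cont _)).norm.pow 2
    · rw [abs_of_nonneg (by positivity)]
      refine pow_le_pow_left₀ (norm_nonneg _) ?_ 2
      refine (norm_sum_le _ _).trans (Finset.sum_le_sum fun i _ => ?_)
      rw [norm_mul, ee_norm, mul_one]
  · rw [hfun]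
    refine (mv hW τ s (fun i => i.1 * i.2 ^ 2) b hkey).trans ?_
    have hdiag : (∑ i ∈ s, ∑ j ∈ s, if i.1 * i.2 ^ 2 = j.1 * j.2 ^ 2 then ‖b i‖ * ‖b j‖ else 0) ≤
        VV δ T c m v * ∑ p ∈ P, (rp T c v p ^ 2 / p) ^ 2 := by
      have h1 : ∀ i ∈ s, ∀ j ∈ s, (if i.1 * i.2 ^ 2 = j.1 * j.2 ^ 2 then ‖b i‖ * ‖b j‖ else 0) =
          if i = j then ‖b i‖ ^ 2 else 0 := by
        intro i hi j hj
        by_cases hij : i = j
        · rw [if_pos hij, hij, if_pos rfl, sq]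
        · rw [if_neg hij]
          by_cases hk : i.1 * i.2 ^ 2 = j.1 * j.2 ^ 2
          · rw [if_pos hk, hbn i hi, hbn j hj]
            by_cases hri : rr δ T c m v i.1 = 0
            · rw [hri]; simp
            · by_cases hrj : rr δ T c m v j.1 = 0
              · rw [hrj]; simp
              · exfalso
                rw [hs, Finset.mem_product] at hi hj
                obtain ⟨e1, e2⟩ := uniq (hP _ hi.2).1 (hP _ hj.2).1 (sqf_of_ne hrj) hk
                exact hij (Prod.ext e1 e2)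
          · rw [if_neg hk]
      have h2 : (∑ i ∈ s, ∑ j ∈ s, if i.1 * i.2 ^ 2 = j.1 * j.2 ^ 2 then ‖b i‖ * ‖b j‖ else 0) = ∑ i ∈ s, ‖b i‖ ^ 2 := by
        refine Finset.sum_congr rfl fun i hi => ?_
        rw [Finset.sum_congr rfl (h1 i hi), Finset.sum_ite_eq, if_pos hi]
      rw [h2, VV, Finset.sum_mul_sum, ← Finset.sum_product']
      refine le_of_eq (Finset.sum_congr rfl fun i hi => ?_)
      rw [hbn i hi]
      rw [Finset.mem_product] at hi
      have h3 : (0:ℝ) < i.1 := by exact_mod_cast (Finset.mem_Icc.1 hi.1).1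
      rw [mul_pow, div_pow, Real.sq_sqrt h3.le, sq_abs]
    have hs4 : ∑ p ∈ P, (rp T c v p ^ 2 / p) ^ 2 ≤ 1 / (2 * c ^ 4) := by
      have h1 : ∀ p ∈ P, (rp T c v p ^ 2 / p) ^ 2 ≤ c ^ 2 / Real.log T ^ 60 * (1 / p) := by
        intro p hp
        have hpp := hP p hp
        have hp0 : (0:ℝ) < p := by exact_mod_cast hpp.1.pos
        have hL60 : 0 < Real.log T ^ 60 := by positivity
        have h2 : rp T c v p ^ 2 ≤ c := (hrp p).trans hmc
        have h3 : (rp T c v p ^ 2) ^ 2 ≤ c ^ 2 := pow_le_pow_left₀ (sq_nonneg _) h2 2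
        calc (rp T c v p ^ 2 / p) ^ 2 = (rp T c v p ^ 2) ^ 2 * (1 / p * (1 / p)) := by
              field_simp
          _ ≤ c ^ 2 * (1 / Real.log T ^ 60 * (1 / p)) := by
              apply mul_le_mul h3 _ (by positivity) (by positivity)
              exact mul_le_mul_of_nonneg_right (one_div_le_one_div_of_le hL60 hpp.2.2.1.le) (by positivity)
          _ = _ := by ring
      refine (Finset.sum_le_sum h1).trans ?_
      rw [← Finset.mul_sum]
      have hL60 : 0 < Real.log T ^ 60 := by positivity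
      calc c ^ 2 / Real.log T ^ 60 * ∑ p ∈ P, (1 / p : ℝ) ≤ c ^ 2 / Real.log T ^ 60 * c :=
            mul_le_mul_of_nonneg_left hsum1 (by positivity)
        _ ≤ 1 / (2 * c ^ 4) := by
            rw [le_div_iff₀ (by positivity), div_mul_eq_mul_div, div_mul_eq_mul_div, div_le_one hL60]
            calc c ^ 2 * c * (2 * c ^ 4) ≤ (2 * c) ^ 7 := by
                  have : 0 ≤ c ^ 7 := by positivity
                  calc c ^ 2 * c * (2 * c ^ 4) = 2 * c ^ 7 := by ring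
                    _ ≤ 128 * c ^ 7 := by linarith
                    _ = (2 * c) ^ 7 := by ring
              _ ≤ Real.log T ^ 7 := pow_le_pow_left₀ (by linarith) hcL 7
              _ ≤ Real.log T ^ 60 := pow_le_pow_right₀ hL1 (by norm_num)
    have herr : (∑ i ∈ s, ‖b i‖) ^ 2 * Real.exp (-(WW T / ((N * N2 ^ 2 : ℕ) : ℝ))) ≤ VV δ T c m v / (2 * c ^ 4) := by
      have h1 : ∑ i ∈ s, ‖b i‖ ≤ T ^ 3 := by
        have h2 : ∑ i ∈ s, ‖b i‖ = (∑ n ∈ Finset.Icc 1 N, |rr δ T c m v n| / Real.sqrt n) * ∑ p ∈ P, rp T c v p ^ 2 / p := by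
          rw [Finset.sum_mul_sum, ← Finset.sum_product']
          exact Finset.sum_congr rfl hbn
        have h3 : ∑ n ∈ Finset.Icc 1 N, |rr δ T c m v n| / Real.sqrt n ≤ T := by
          calc ∑ n ∈ Finset.Icc 1 N, |rr δ T c m v n| / Real.sqrt n ≤ ∑ n ∈ Finset.Icc 1 N, T ^ (1 / 192 : ℝ) := by
                refine Finset.sum_le_sum fun n hn => ?_
                have hn1 : (1:ℝ) ≤ n := by exact_mod_cast (Finset.mem_Icc.mp hn).1
                exact (div_le_self (abs_nonneg _) (Real.one_le_sqrt.mpr hn1)).trans (hr n)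
            _ = N * T ^ (1 / 192 : ℝ) := by rw [Finset.sum_const, Nat.card_Icc, nsmul_eq_mul]; simp
            _ ≤ T ^ (1 / 8 : ℝ) * T ^ (1 / 192 : ℝ) := by gcongr; exact NR_le hT0.le
            _ = T ^ (1 / 8 + 1 / 192 : ℝ) := by rw [← Real.rpow_add hT0]
            _ ≤ T ^ (1 : ℝ) := Real.rpow_le_rpow_of_exponent_le hT1 (by norm_num)
            _ = T := Real.rpow_one T
        have h4 : ∑ p ∈ P, rp T c v p ^ 2 / p ≤ T * T := by
          calc ∑ p ∈ P, rp T c v p ^ 2 / p ≤ ∑ p ∈ P, c * (1 / p : ℝ) := by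
                refine Finset.sum_le_sum fun p hp => ?_
                have hp0 : (0:ℝ) < p := by exact_mod_cast (hP p hp).1.pos
                rw [div_eq_mul_one_div]
                exact mul_le_mul_of_nonneg_right ((hrp p).trans hmc) (by positivity)
            _ = c * ∑ p ∈ P, (1 / p : ℝ) := by rw [Finset.mul_sum]
            _ ≤ c * c := mul_le_mul_of_nonneg_left hsum1 (by linarith)
            _ ≤ T * T := mul_le_mul (by linarith) (by linarith) (by linarith) hT0.le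
        rw [h2]
        calc _ ≤ T * (T * T) := mul_le_mul h3 h4 (Finset.sum_nonneg fun p _ => by positivity) hT0.le
          _ = T ^ 3 := by ring
      have h5 : ((N * N2 ^ 2 : ℕ) : ℝ) ≤ T ^ (1 / 4 : ℝ) := by
        have h6 : (N2 : ℝ) ≤ T ^ (1 / 1000 : ℝ) := Nat.floor_le (by positivity)
        push_cast
        calc (N : ℝ) * (N2 : ℝ) ^ 2 ≤ T ^ (1 / 8 : ℝ) * (T ^ (1 / 1000 : ℝ)) ^ 2 := by
              gcongr
              exact NR_le hT0.le
          _ = T ^ (1 / 8 + 1 / 500 : ℝ) := by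
              rw [← Real.rpow_natCast, ← Real.rpow_mul hT0.le, ← Real.rpow_add hT0]
              norm_num
          _ ≤ T ^ (1 / 4 : ℝ) := Real.rpow_le_rpow_of_exponent_le hT1 (by norm_num)
      have h7 := exp_WW hT1 (Nat.mul_pos hN1 (pow_pos hN21 2)) h5
      have h8 := hg T hTT4
      have h9 : (∑ i ∈ s, ‖b i‖) ^ 2 ≤ (T ^ 3) ^ 2 :=
        pow_le_pow_left₀ (Finset.sum_nonneg fun _ _ => norm_nonneg _) h1 2
      rw [le_div_iff₀ (by positivity)]
      calc (∑ i ∈ s, ‖b i‖) ^ 2 * Real.exp (-(WW T / ((N * N2 ^ 2 : ℕ) : ℝ))) * (2 * c ^ 4)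
          ≤ (T ^ 3) ^ 2 * Real.exp (-(T ^ (1 / 2 : ℝ))) * (2 * T ^ 4) := by
            apply mul_le_mul
            · exact mul_le_mul h9 h7 (Real.exp_pos _).le (by positivity)
            · have : c ^ 4 ≤ T ^ 4 := pow_le_pow_left₀ (by linarith) (by linarith) 4
              linarith
            · positivity
            · positivity
        _ = 2 * T ^ 10 * Real.exp (-(T ^ (1 / 2 : ℝ))) := by ring
        _ ≤ 1 := h8
        _ ≤ VV δ T c m v := hV
    have hV0 : 0 ≤ VV δ T c m v := by linarith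
    calc _ ≤ VV δ T c m v * ∑ p ∈ P, (rp T c v p ^ 2 / p) ^ 2 + VV δ T c m v / (2 * c ^ 4) := add_le_add hdiag herr
      _ ≤ VV δ T c m v * (1 / (2 * c ^ 4)) + VV δ T c m v / (2 * c ^ 4) := by gcongr
      _ = VV δ T c m v / c ^ 4 := by
          have : c ≠ 0 := by linarith
          field_simp
          ring

end Pool.Agent.Helper21.UW
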